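import Pool.Agent.Helper34.PU.Goals

/-!
MP_8060f4_co, packet PROC.
-/

set_option autoImplicit false

open Finset Function
open scoped Classical

namespace Pool.Agent.Helper85.PU

open Pool.Agent.Helper34.PU

/-- the empty future -/
noncomputable def stop (V : Type) : RF V where
  Ω := Unit
  w := fun _ => 1
  w_nonneg := fun _ => zero_le_one
  w_sum := by simp
  F := fun _ => []
  Y := fun _ => ∅

theorem stop_in {V : Type} (z : V) : (stop V).In z = 0 := by
  unfold RF.In stop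
  simp

theorem stop_bef {V : Type} (a b : V) : (stop V).Bef a b = 0 := by
  unfold RF.Bef stop
  simp

theorem stop_cut {V : Type} (z : V) : (stop V).Cut z = 0 := by
  unfold RF.Cut stop
  simp

theorem stop_core {V : Type} (H : SimpleGraph V) (θ : ℝ) (h : Finset V) (ℓ : ℕ) :
    Core H θ h ℓ (stop V) where
  nodup := fun _ => List.nodup_nil
  disj := fun _ z hz => by
    change z ∈ ([] : List V) at hz
    simp at hz
  up := fun a b _ _ _ => by
    rw [stop_bef, stop_bef, stop_in]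
    simp
  lo := fun a b _ _ _ => by
    rw [stop_bef, stop_bef, stop_in, stop_cut]
    simp
  link := fun _ b hb => by
    change b ∈ ([] : List V) at hb
    simp at hb
  len := fun _ => by
    change ([] : List V).length ≤ ℓ
    simp

theorem in_nonneg {V : Type} (R : RF V) (z : V) : 0 ≤ R.In z := by
  unfold RF.In
  refine Finset.sum_nonneg fun ω _ => ?_
  split_ifs
  · exact R.w_nonneg ω
  · exact le_rfl

theorem core_mono {V : Type} {H : SimpleGraph V} {θ : ℝ} {h : Finset V} {ℓ ℓ' : ℕ} {R : RF V}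
    (hc : Core H θ h ℓ R) (hl : ℓ ≤ ℓ') : Core H θ h ℓ' R :=
  ⟨hc.nodup, hc.disj, hc.up, hc.lo, hc.link, fun ω => (hc.len ω).trans hl⟩

theorem nbw_nonneg {V : Type} [Fintype V] (H : SimpleGraph V) (j : ℕ) (p u z : V) :
    0 ≤ nbw H j p u z := by
  induction j generalizing p u with
  | zero =>
    unfold nbw
    split_ifs
    · exact zero_le_one
    · exact le_rfl
  | succ j ih =>
    unfold nbw
    exact Finset.sum_nonneg fun y _ => ih u y

theorem mem_nbr {V : Type} [Fintype V] {H : SimpleGraph V} {u y : V} :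
    y ∈ nbr H u ↔ H.Adj u y := by
  unfold nbr
  simp

/-- packet `PROC` -/
theorem proc (h1 : LL2Stmt) (h2 : LL3Stmt) (h3 : StepStmt) (h4 : ArmStmt) : ProcStmt := by
  intro V _ H Δ θ hΔ hdeg hθ hθ1 J u
  have hd : (3 : ℝ) ≤ Δ := by exact_mod_cast hΔ
  set d : ℝ := (Δ : ℝ) with hd'
  have hd1 : 0 < d - 1 := by linarith
  set τ : ℝ := θ / (d - 1) with hτ
  have hτ0 : 0 < τ := by positivity
  have hτd : τ * (d - 1) = θ := by
    rw [hτ]
    field_simp
  have hτθ : τ ≤ θ := by nlinarith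
  have hθ2 : θ ≤ 1 / 2 := by nlinarith
  have hτ1 : τ < 1 := by linarith
  have hdτ : d * τ ≤ 1 := by
    have e1 : d * τ = τ * (d - 1) + τ := by ring
    have e2 : τ ≤ θ / 2 := by
      have : τ * 2 ≤ τ * (d - 1) := by
        have : (2 : ℝ) ≤ d - 1 := by linarith
        exact mul_le_mul_of_nonneg_left this hτ0.le
      linarith
    linarith
  have hdθ : d * (θ - τ) ≤ 1 - τ := by nlinarith
  have hcardN : ((nbr H u).card : ℝ) ≤ d := by
    rw [hd']
    exact_mod_cast hdeg u
  let sb : V → ℝ := fun z => ∑ y ∈ nbr H u, nbw H J u y z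
  have hsb : ∀ z, 0 ≤ sb z := fun z => Finset.sum_nonneg fun y _ => nbw_nonneg H J u y z
  let ys : V → ℝ := fun z => τ * (θ ^ J * sb z)
  -- (A)
  have hA : ∀ (h : Finset V) (y : V), u ∈ h → y ∈ nbr H u → ∃ R : RF V,
      Core H θ (insert y h) J R ∧ (∀ z, z ∉ insert y h → R.In z ≤ θ) ∧
      (∀ b, b ∉ insert y h → H.Adj y b → θ * (1 - R.Cut y) ≤ R.In b) ∧
      (∀ z, R.Cut z ≤ θ ^ J * nbw H J u y z) := by
    intro h y hu hy
    obtain ⟨M, m1, m2, _, m4, m5⟩ := h4 V H Δ θ hdeg hθ hθ1 ∅ 0 le_rfl hθ.le ∅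
      (fun _ => stop V) (fun _ => 0) 0
      (fun h _ => ⟨stop_core H θ h 0, fun z _ => by rw [stop_in]; exact hθ.le,
        fun z hz => absurd hz (Finset.notMem_empty z), fun z => by rw [stop_cut]⟩)
      J (insert y h) u y (Finset.empty_subset _) (Finset.mem_insert_of_mem hu)
      (Finset.mem_insert_self _ _) (mem_nbr.1 hy)
    rw [zero_add] at m1
    refine ⟨M, m1, m2, m4, fun z => ?_⟩
    have := m5 z
    rwa [add_zero] at this
  -- (B)
  have hB : ∀ h : Finset V, u ∈ h → ∃ S : RF V, Core H θ h (J + 1) S ∧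
      (∀ z, z ∉ h → S.In z ≤ θ) ∧ (∀ z ∈ nbr H u, z ∉ h → S.In z = τ) ∧
      ∀ z, S.Cut z ≤ ys z := by
    intro h hu
    have hRex : ∀ y : V, ∃ R : RF V, y ∈ nbr H u → Core H θ (insert y h) J R ∧
        (∀ z, z ∉ insert y h → R.In z ≤ θ) ∧
        (∀ b, b ∉ insert y h → H.Adj y b → θ * (1 - R.Cut y) ≤ R.In b) ∧
        (∀ z, R.Cut z ≤ θ ^ J * nbw H J u y z) := fun y => by
      by_cases hy : y ∈ nbr H u
      · obtain ⟨R, hR⟩ := hA h y hu hy
        exact ⟨R, fun _ => hR⟩
      · exact ⟨stop V, fun h => absurd h hy⟩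
    choose R hR using hRex
    let Z : Finset V := nbr H u \ h
    have hZn : ∀ y ∈ Z, y ∈ nbr H u := fun y hy => (Finset.mem_sdiff.1 hy).1
    have hZh : ∀ y ∈ Z, y ∉ h := fun y hy => (Finset.mem_sdiff.1 hy).2
    have hZc : (Z.card : ℝ) ≤ d := by
      refine le_trans ?_ hcardN
      exact_mod_cast Finset.card_le_card Finset.sdiff_subset
    obtain ⟨c, hc1, hc2⟩ := h1 V Z θ τ (fun y z => (R y).In z) hτ0.le hθ
      (le_trans (mul_le_mul_of_nonneg_right (by linarith) hθ.le) hθ1)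
      (fun y hy z hz hyz => ⟨in_nonneg _ _, (hR y (hZn y hy)).2.1 z (by
        rw [Finset.mem_insert]
        rintro (e | e)
        · exact hyz e.symm
        · exact hZh z hz e)⟩)
    have hcs : ∑ y ∈ Z, c y ≤ 1 := by
      calc ∑ y ∈ Z, c y ≤ ∑ _y ∈ Z, τ := Finset.sum_le_sum fun y hy => (hc1 y hy).2
        _ = Z.card * τ := by rw [Finset.sum_const, nsmul_eq_mul]
        _ ≤ d * τ := mul_le_mul_of_nonneg_right hZc hτ0.le
        _ ≤ 1 := hdτ
    obtain ⟨M, m1, m2, m3⟩ := h3 V H θ h Z J c R (stop V) hθ.le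
      (Finset.disjoint_left.2 fun a ha hz => hZh a hz ha)
      (fun y hy => ⟨u, hu, mem_nbr.1 (hZn y hy)⟩) (fun y hy => (hc1 y hy).1) hcs
      (fun y hy => (hR y (hZn y hy)).1) (fun y hy => (hR y (hZn y hy)).2.1)
      (fun y hy => (hR y (hZn y hy)).2.2.1) (stop_core H θ h (J + 1))
    have hτz : ∀ z ∈ nbr H u, z ∉ h → M.In z = τ := by
      intro z hz hzh
      have hzZ : z ∈ Z := Finset.mem_sdiff.2 ⟨hz, hzh⟩
      rw [m2 z hzh, if_pos hzZ, stop_in, mul_zero, add_zero]
      exact hc2 z hzZ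
    refine ⟨M, m1, fun z hz => ?_, hτz, fun z => ?_⟩
    · by_cases hzn : z ∈ nbr H u
      · rw [hτz z hzn hz]; exact hτθ
      · have hzZ : z ∉ Z := fun e => hzn (hZn z e)
        rw [m2 z hz, if_neg hzZ, stop_in, mul_zero, add_zero, zero_add]
        calc ∑ y ∈ Z.erase z, c y * (R y).In z ≤ ∑ y ∈ Z.erase z, c y * θ := by
              refine Finset.sum_le_sum fun y hy => ?_
              have hyZ := Finset.mem_of_mem_erase hy
              refine mul_le_mul_of_nonneg_left ((hR y (hZn y hyZ)).2.1 z ?_) (hc1 y hyZ).1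
              rw [Finset.mem_insert]
              rintro (e | e)
              · exact (Finset.ne_of_mem_erase hy) e.symm
              · exact hz e
          _ = (∑ y ∈ Z, c y) * θ := by rw [Finset.erase_eq_of_notMem hzZ, Finset.sum_mul]
          _ ≤ 1 * θ := mul_le_mul_of_nonneg_right hcs hθ.le
          _ = θ := one_mul _
    · rw [m3 z, stop_cut, mul_zero, add_zero]
      calc ∑ y ∈ Z, c y * (R y).Cut z ≤ ∑ y ∈ Z, τ * (θ ^ J * nbw H J u y z) := by
            refine Finset.sum_le_sum fun y hy => ?_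
            have e1 := (hR y (hZn y hy)).2.2.2 z
            have e2 : 0 ≤ θ ^ J * nbw H J u y z :=
              mul_nonneg (by positivity) (nbw_nonneg H J u y z)
            calc c y * (R y).Cut z ≤ c y * (θ ^ J * nbw H J u y z) :=
                  mul_le_mul_of_nonneg_left e1 (hc1 y hy).1
              _ ≤ τ * (θ ^ J * nbw H J u y z) := mul_le_mul_of_nonneg_right (hc1 y hy).2 e2
        _ ≤ ∑ y ∈ nbr H u, τ * (θ ^ J * nbw H J u y z) := by
            refine Finset.sum_le_sum_of_subset_of_nonneg Finset.sdiff_subset fun y _ _ => ?_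
            exact mul_nonneg hτ0.le (mul_nonneg (by positivity) (nbw_nonneg H J u y z))
        _ = ys z := by
            simp only [ys, sb]
            rw [Finset.mul_sum, Finset.mul_sum]
  have hSex : ∀ h : Finset V, ∃ S : RF V, u ∈ h → Core H θ h (J + 1) S ∧
      (∀ z, z ∉ h → S.In z ≤ θ) ∧ (∀ z ∈ nbr H u, z ∉ h → S.In z = τ) ∧
      ∀ z, S.Cut z ≤ ys z := fun h => by
    by_cases hu : u ∈ h
    · obtain ⟨S, hS⟩ := hB h hu
      exact ⟨S, fun _ => hS⟩
    · exact ⟨stop V, fun h => absurd h hu⟩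
  choose S hS using hSex
  -- (C)
  have hC : ∀ y : V, ∃ R : RF V, y ∈ nbr H u → Core H θ (insert y {u}) (2 * J + 1) R ∧
      (∀ z, z ∉ insert y ({u} : Finset V) → R.In z ≤ θ) ∧
      (∀ z ∈ nbr H u, z ∉ insert y ({u} : Finset V) → τ ≤ R.In z) ∧
      (∀ b, b ∉ insert y ({u} : Finset V) → H.Adj y b → θ * (1 - R.Cut y) ≤ R.In b) ∧
      (∀ z, R.Cut z ≤ θ ^ J * nbw H J u y z + ys z) := by
    intro y
    by_cases hy : y ∈ nbr H u
    · obtain ⟨M, m1, m2, m3, m4, m5⟩ := h4 V H Δ θ hdeg hθ hθ1 (nbr H u) τ hτ0.le hτθ {u} S ys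
        (J + 1)
        (fun h hh => by
          have huh : u ∈ h := hh (Finset.mem_singleton_self u)
          obtain ⟨s1, s2, s3, s4⟩ := hS h huh
          exact ⟨s1, s2, fun z hz hzh => (s3 z hz hzh).ge, s4⟩)
        J (insert y {u}) u y (Finset.subset_insert _ _)
        (Finset.mem_insert_of_mem (Finset.mem_singleton_self u))
        (Finset.mem_insert_self _ _) (mem_nbr.1 hy)
      rw [show J + 1 + J = 2 * J + 1 by ring] at m1
      exact ⟨M, fun _ => ⟨m1, m2, m3, m4, m5⟩⟩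
    · exact ⟨stop V, fun h => absurd h hy⟩
  choose R hR using hC
  -- (D)
  have huZ : u ∉ nbr H u := fun e => (mem_nbr.1 e).ne rfl
  obtain ⟨c, hc1, hc2⟩ := h2 V (nbr H u) θ τ (fun y z => (R y).In z) hτ0.le hτθ (by linarith)
    (le_trans (mul_le_mul_of_nonneg_right hcardN (by linarith)) hdθ)
    (fun y hy z hz hyz => by
      have hni : z ∉ insert y ({u} : Finset V) := by
        rw [Finset.mem_insert, Finset.mem_singleton]
        rintro (e | e)
        · exact hyz e.symm
        · exact huZ (e ▸ hz)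
      exact ⟨(hR y hy).2.2.1 z hz hni, (hR y hy).2.1 z hni⟩)
  have hcs : ∑ y ∈ nbr H u, c y ≤ 1 := by
    have e1 : (∑ y ∈ nbr H u, c y) * (1 - τ) ≤ 1 * (1 - τ) := by
      rw [one_mul, Finset.sum_mul]
      calc ∑ y ∈ nbr H u, c y * (1 - τ) ≤ ∑ _y ∈ nbr H u, (θ - τ) :=
            Finset.sum_le_sum fun y hy => (hc1 y hy).2
        _ = (nbr H u).card * (θ - τ) := by rw [Finset.sum_const, nsmul_eq_mul]
        _ ≤ d * (θ - τ) := mul_le_mul_of_nonneg_right hcardN (by linarith)
        _ ≤ 1 - τ := hdθ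
    exact le_of_mul_le_mul_right e1 (by linarith)
  have hcθ : ∀ y ∈ nbr H u, c y ≤ θ := by
    intro y hy
    have e1 := (hc1 y hy).2
    have e2 : c y * (1 - τ) ≤ θ * (1 - τ) := by nlinarith
    exact le_of_mul_le_mul_right e2 (by linarith)
  obtain ⟨s1, s2, s3, s4⟩ := hS {u} (Finset.mem_singleton_self u)
  obtain ⟨M, m1, m2, m3⟩ := h3 V H θ {u} (nbr H u) (2 * J + 1) c R (S {u}) hθ.le
    (Finset.disjoint_singleton_left.2 huZ)
    (fun y hy => ⟨u, Finset.mem_singleton_self u, mem_nbr.1 hy⟩) (fun y hy => (hc1 y hy).1) hcs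
    (fun y hy => (hR y hy).1) (fun y hy => (hR y hy).2.1)
    (fun y hy => (hR y hy).2.2.2.1) (core_mono s1 (by omega))
  have hM : ∀ b, b ∈ nbr H u → M.In b = θ := by
    intro b hb
    have hbu : b ∉ ({u} : Finset V) := by
      rw [Finset.mem_singleton]
      exact fun e => huZ (e ▸ hb)
    rw [m2 b hbu, if_pos hb, s3 b hb hbu]
    exact hc2 b hb
  refine ⟨M, m1, fun z hz => ?_, fun b hb => hM b (mem_nbr.2 hb), fun z => ?_⟩
  · have hzu : z ∉ ({u} : Finset V) := by rwa [Finset.mem_singleton]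
    by_cases hzn : z ∈ nbr H u
    · exact (hM z hzn).le
    · rw [m2 z hzu, if_neg hzn, zero_add, Finset.erase_eq_of_notMem hzn]
      have e1 : ∑ y ∈ nbr H u, c y * (R y).In z ≤ (∑ y ∈ nbr H u, c y) * θ := by
        rw [Finset.sum_mul]
        refine Finset.sum_le_sum fun y hy => ?_
        refine mul_le_mul_of_nonneg_left ((hR y hy).2.1 z ?_) (hc1 y hy).1
        rw [Finset.mem_insert]
        rintro (e | e)
        · exact hzn (e ▸ hy)
        · exact hzu e
      have e2 : (1 - ∑ y ∈ nbr H u, c y) * (S {u}).In z ≤ (1 - ∑ y ∈ nbr H u, c y) * θ :=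
        mul_le_mul_of_nonneg_left (s2 z hzu) (by linarith)
      linarith
  · rw [m3 z]
    have e1 : ∑ y ∈ nbr H u, c y * (R y).Cut z ≤
        θ * (θ ^ J * sb z) + (∑ y ∈ nbr H u, c y) * ys z := by
      have e3 : θ * (θ ^ J * sb z) = ∑ y ∈ nbr H u, θ * (θ ^ J * nbw H J u y z) := by
        simp only [sb]
        rw [Finset.mul_sum, Finset.mul_sum]
      rw [e3, Finset.sum_mul, ← Finset.sum_add_distrib]
      refine Finset.sum_le_sum fun y hy => ?_
      have e4 := (hR y hy).2.2.2.2 z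
      have e5 : 0 ≤ θ ^ J * nbw H J u y z :=
        mul_nonneg (by positivity) (nbw_nonneg H J u y z)
      calc c y * (R y).Cut z ≤ c y * (θ ^ J * nbw H J u y z + ys z) :=
            mul_le_mul_of_nonneg_left e4 (hc1 y hy).1
        _ = c y * (θ ^ J * nbw H J u y z) + c y * ys z := mul_add _ _ _
        _ ≤ θ * (θ ^ J * nbw H J u y z) + c y * ys z :=
            add_le_add_left (mul_le_mul_of_nonneg_right (hcθ y hy) e5) _
    have e2 : (1 - ∑ y ∈ nbr H u, c y) * (S {u}).Cut z ≤ (1 - ∑ y ∈ nbr H u, c y) * ys z :=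
      mul_le_mul_of_nonneg_left (s4 z) (by linarith)
    have e6 : ys z ≤ θ * (θ ^ J * sb z) := by
      have e7 : 0 ≤ θ ^ J * sb z := mul_nonneg (by positivity) (hsb z)
      exact mul_le_mul_of_nonneg_right hτθ e7
    calc ∑ y ∈ nbr H u, c y * (R y).Cut z + (1 - ∑ y ∈ nbr H u, c y) * (S {u}).Cut z
        ≤ θ * (θ ^ J * sb z) + ys z := by linarith
      _ ≤ θ * (θ ^ J * sb z) + θ * (θ ^ J * sb z) := by linarith
      _ = 2 * θ ^ (J + 1) * ∑ y ∈ nbr H u, nbw H J u y z := by
          simp only [sb]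
          rw [pow_succ]
          ring

end Pool.Agent.Helper85.PU
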